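import Pool.Agent.helper40.Signs.Conn

/-! For every `n ≥ 3` and every `p` close enough to `1` (with an explicit bound) the signs model
minimises the connectivity probability of the hypercube over one-independent bond percolation
models in which every edge is open with probability at least `p`. -/

namespace Pool.Agent.Results.MP_2627e3_pr.SignsHypercube

open Pool.Agent.helper40.Signs Classical

/-- the hypercube graph `Q_n` on `{0,1}^n`: adjacent = exactly one coordinate differs -/
def cube (n : ℕ) : SimpleGraph (Fin n → Bool) where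
  Adj x y := ∃! i, x i ≠ y i
  symm := ⟨by
    rintro x y ⟨i, hi, hu⟩
    exact ⟨i, Ne.symm hi, fun j hj => hu j (Ne.symm hj)⟩⟩
  loopless := ⟨by
    rintro x ⟨i, hi, _⟩
    exact hi rfl⟩

/-- the spanning subgraphs of `G` -/
abbrev Spanning {V : Type*} (G : SimpleGraph V) := {H : SimpleGraph V // H ≤ G}

/-- one-independence of a bond percolation model (a random spanning subgraph) on `G` -/
def OneIndep {V : Type*} {G : SimpleGraph V} (μ : PMF (Spanning G)) : Prop :=
  ∀ S T : Set V, Disjoint S T → ∀ (A : Set (SimpleGraph S)) (B : Set (SimpleGraph T)),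
    μ.toOuterMeasure {H | H.1.induce S ∈ A ∧ H.1.induce T ∈ B} =
      μ.toOuterMeasure {H | H.1.induce S ∈ A} * μ.toOuterMeasure {H | H.1.induce T ∈ B}

/-- the class `D_{≥ p}(G)` -/
def InD {V : Type*} {G : SimpleGraph V} (p : ℝ) (μ : PMF (Spanning G)) : Prop :=
  OneIndep μ ∧ ∀ x y, G.Adj x y → ENNReal.ofReal p ≤ μ.toOuterMeasure {H | H.1.Adj x y}

/-- independent signs: each vertex is `true` with probability `θ`, `false` otherwise -/
noncomputable def signLaw (V : Type*) [Fintype V] [DecidableEq V] (θ : unitInterval) :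
    PMF (V → Bool) :=
  PMF.ofFintype (fun s => ∏ v, ENNReal.ofReal (if s v = true then (θ : ℝ) else 1 - θ)) (by
    have h1 : ∀ _v : V, ∑ b : Bool, ENNReal.ofReal (if b = true then (θ : ℝ) else 1 - θ) = 1 := by
      intro _
      rw [Fintype.sum_bool, ← ENNReal.ofReal_add]
      · simp
      · simpa using θ.2.1
      · simpa using θ.2.2
    have h2 := Fintype.prod_sum (fun (_ : V) (b : Bool) =>
      ENNReal.ofReal (if b = true then (θ : ℝ) else 1 - θ))
    rw [← h2]
    exact Finset.prod_eq_one fun v _ => h1 v)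

/-- the edges of `G` whose two endpoints have the same sign -/
def sameSign {V : Type*} (G : SimpleGraph V) (s : V → Bool) : Spanning G :=
  ⟨{ Adj := fun x y => G.Adj x y ∧ s x = s y
     symm := ⟨fun _ _ h => ⟨h.1.symm, h.2.symm⟩⟩
     loopless := ⟨fun _ h => G.irrefl h.1⟩ }, fun _ _ h => h.1⟩

/-- the signs model on `G` with parameter `θ` -/
noncomputable def signs {V : Type*} [Fintype V] [DecidableEq V] (G : SimpleGraph V)
    (θ : unitInterval) : PMF (Spanning G) :=
  (signLaw V θ).map (sameSign G)

/-- the signs model at `p` lies in `D_{≥ p}(Q_n)` and minimises the connectivity probability -/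
def SignsMinimise (n : ℕ) (p : ℝ) : Prop :=
  ∃ θ : unitInterval, (θ : ℝ) = (1 + √(2 * p - 1)) / 2 ∧ InD p (signs (cube n) θ) ∧
    ∀ μ : PMF (Spanning (cube n)), InD p μ →
      (signs (cube n) θ).toOuterMeasure {H | H.1.Connected} ≤
        μ.toOuterMeasure {H | H.1.Connected}

/-! ### generalities -/

theorem prob_real {X : Type*} [Fintype X] (μ : PMF X) (E : Set X) :
    (μ.toOuterMeasure E).toReal = ∑ H, (μ H).toReal * (if H ∈ E then 1 else 0) := by
  rw [PMF.toOuterMeasure_apply_fintype, ENNReal.toReal_sum]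
  · apply Finset.sum_congr rfl
    intro H _
    by_cases h : H ∈ E
    · rw [Set.indicator_of_mem h, if_pos h, mul_one]
    · rw [Set.indicator_of_notMem h, if_neg h, mul_zero, ENNReal.toReal_zero]
  · intro H _
    by_cases h : H ∈ E
    · rw [Set.indicator_of_mem h]; exact μ.apply_ne_top H
    · rw [Set.indicator_of_notMem h]; exact ENNReal.zero_ne_top

theorem prob_ne_top {X : Type*} [Fintype X] (μ : PMF X) (E : Set X) :
    μ.toOuterMeasure E ≠ ⊤ := by
  rw [PMF.toOuterMeasure_apply_fintype]
  apply (ENNReal.sum_lt_top.mpr _).ne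
  intro H _
  by_cases h : H ∈ E
  · rw [Set.indicator_of_mem h]; exact (μ.apply_ne_top H).lt_top
  · rw [Set.indicator_of_notMem h]; exact ENNReal.zero_lt_top

theorem total_real {X : Type*} [Fintype X] (μ : PMF X) : ∑ H, (μ H).toReal = 1 := by
  have h := μ.tsum_coe
  rw [tsum_fintype] at h
  rw [← ENNReal.toReal_sum fun H _ => μ.apply_ne_top H, h, ENNReal.toReal_one]

theorem indep_fun {X A B : Type*} [Fintype X] [Fintype A] [Fintype B] (r : X → ℝ) (s : X → A)
    (t : X → B)
    (h : ∀ K L, ∑ H, r H * (if s H = K ∧ t H = L then (1 : ℝ) else 0) =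
      (∑ H, r H * (if s H = K then (1 : ℝ) else 0)) *
        (∑ H, r H * (if t H = L then (1 : ℝ) else 0)))
    (f : A → ℝ) (g : B → ℝ) :
    ∑ H, r H * (f (s H) * g (t H)) = (∑ H, r H * f (s H)) * (∑ H, r H * g (t H)) := by
  have e1 : ∀ H, r H * (f (s H) * g (t H)) =
      ∑ K, ∑ L, (f K * g L) * (r H * (if s H = K ∧ t H = L then (1 : ℝ) else 0)) := by
    intro H
    rw [Finset.sum_eq_single (s H), Finset.sum_eq_single (t H)]
    · rw [if_pos ⟨rfl, rfl⟩]; ring
    · intro L _ hL
      rw [if_neg fun h => hL h.2.symm]; ring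
    · intro h; exact absurd (Finset.mem_univ _) h
    · intro K _ hK
      apply Finset.sum_eq_zero
      intro L _
      rw [if_neg fun h => hK h.1.symm]; ring
    · intro h; exact absurd (Finset.mem_univ _) h
  have e2 : ∀ H, r H * f (s H) = ∑ K, f K * (r H * (if s H = K then (1 : ℝ) else 0)) := by
    intro H
    rw [Finset.sum_eq_single (s H)]
    · rw [if_pos rfl]; ring
    · intro K _ hK
      rw [if_neg fun h => hK h.symm]; ring
    · intro h; exact absurd (Finset.mem_univ _) h
  have e3 : ∀ H, r H * g (t H) = ∑ L, g L * (r H * (if t H = L then (1 : ℝ) else 0)) := by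
    intro H
    rw [Finset.sum_eq_single (t H)]
    · rw [if_pos rfl]; ring
    · intro K _ hK
      rw [if_neg fun h => hK h.symm]; ring
    · intro h; exact absurd (Finset.mem_univ _) h
  rw [Finset.sum_congr rfl fun H _ => e1 H, Finset.sum_congr rfl fun H _ => e2 H,
    Finset.sum_congr rfl fun H _ => e3 H, Finset.sum_comm]
  rw [Finset.sum_comm (f := fun H K => f K * (r H * (if s H = K then (1 : ℝ) else 0))),
    Finset.sum_comm (f := fun H L => g L * (r H * (if t H = L then (1 : ℝ) else 0))),
    Finset.sum_mul_sum]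
  apply Finset.sum_congr rfl
  intro K _
  rw [Finset.sum_comm]
  apply Finset.sum_congr rfl
  intro L _
  rw [← Finset.mul_sum, ← Finset.mul_sum, ← Finset.mul_sum, h K L]
  ring

/-! ### from models to configurations -/

variable {n : ℕ}

theorem cube_adj {x y : Vtx n} : (cube n).Adj x y ↔ ∃ i, y = fl x i := by
  constructor
  · rintro ⟨i, hi, hu⟩
    refine ⟨i, ?_⟩
    funext j
    by_cases hj : j = i
    · subst hj
      rw [fl_same]
      revert hi
      cases x j <;> cases y j <;> simp
    · rw [fl_ne _ hj]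
      by_contra hcon
      exact hj (hu j (fun h => hcon h.symm))
  · rintro ⟨i, rfl⟩
    refine ⟨i, ?_, ?_⟩
    · show x i ≠ fl x i i
      rw [fl_same]
      cases x i <;> simp
    · intro j hj
      by_contra hcon
      exact hj (fl_ne x hcon).symm

/-- the configuration of closed edges -/
noncomputable def cl (H : Spanning (cube n)) : Cfg n := fun v i => decide (¬ H.1.Adj v (fl v i))

theorem cl_sym (H : Spanning (cube n)) : SymC (cl H) := by
  intro v i
  unfold cl
  rw [fl_fl, decide_eq_decide, SimpleGraph.adj_comm]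

noncomputable def wm (μ : PMF (Spanning (cube n))) : Cfg n → ℝ :=
  fun c => ∑ H, if cl H = c then (μ H).toReal else 0

theorem ex_wm (μ : PMF (Spanning (cube n))) (F : Cfg n → ℝ) :
    ex (wm μ) F = ∑ H, (μ H).toReal * F (cl H) := by
  unfold ex wm
  simp only [Finset.sum_mul]
  rw [Finset.sum_comm]
  apply Finset.sum_congr rfl
  intro H _
  rw [Finset.sum_eq_single (cl H)]
  · rw [if_pos rfl]
  · intro c _ hc
    rw [if_neg (Ne.symm hc), zero_mul]
  · intro h; exact absurd (Finset.mem_univ _) h

theorem ex_wm_ind (μ : PMF (Spanning (cube n))) (P : Cfg n → Prop) :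
    ex (wm μ) (ind P) = (μ.toOuterMeasure {H | P (cl H)}).toReal := by
  rw [ex_wm, prob_real]
  apply Finset.sum_congr rfl
  intro H _
  congr 1

/-- a local function is a function of the induced subgraph -/
noncomputable def locF (F : Cfg n → ℝ) (S : Set (Vtx n)) (K : SimpleGraph S) : ℝ :=
  if h : ∃ H : Spanning (cube n), H.1.induce S = K then F (cl (Classical.choose h)) else 0

theorem locF_eq {F : Cfg n → ℝ} {S : Set (Vtx n)} (hF : Local S F) (H : Spanning (cube n)) :
    F (cl H) = locF F S (H.1.induce S) := by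
  have h : ∃ H' : Spanning (cube n), H'.1.induce S = H.1.induce S := ⟨H, rfl⟩
  unfold locF
  rw [dif_pos h]
  apply hF
  intro v i hv hi
  have hs := Classical.choose_spec h
  have e : (Classical.choose h).1.Adj v (fl v i) ↔ H.1.Adj v (fl v i) := by
    have := congrArg (fun K : SimpleGraph S => K.Adj ⟨v, hv⟩ ⟨fl v i, hi⟩) hs
    exact iff_of_eq this
  unfold cl
  rw [e]

theorem wm_good {μ : PMF (Spanning (cube n))} (hμ : OneIndep μ) : Good (wm μ) where
  nonneg c := Finset.sum_nonneg fun H _ => by
    split_ifs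
    · exact ENNReal.toReal_nonneg
    · exact le_refl _
  total := by
    have := ex_wm μ (fun _ => 1)
    unfold ex at this
    simp only [mul_one] at this
    rw [this, total_real]
  sym c hc := by
    by_contra hcon
    apply hc
    apply Finset.sum_eq_zero
    intro H _
    rw [if_neg]
    rintro rfl
    exact hcon (cl_sym H)
  indep := by
    intro S T hST F G hF hG
    rw [ex_wm, ex_wm, ex_wm]
    have hd : Disjoint S T := Set.disjoint_left.mpr fun v hv => hST v hv
    have key := indep_fun (fun H : Spanning (cube n) => (μ H).toReal)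
      (fun H => H.1.induce S) (fun H => H.1.induce T) (by
        intro K L
        have h := hμ S T hd {K} {L}
        have h' := congrArg ENNReal.toReal h
        rw [ENNReal.toReal_mul, prob_real, prob_real, prob_real] at h'
        simp only [Set.mem_ofPred_eq, Set.mem_singleton_iff] at h'
        exact h') (locF F S) (locF G T)
    simp only [locF_eq hF, locF_eq hG]
    exact key

theorem wm_cl {μ : PMF (Spanning (cube n))} {p : ℝ} (hp : 0 ≤ p) (hμ : InD p μ) (v : Vtx n)
    (i : Fin n) : pcl (wm μ) v i ≤ 1 - p := by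
  have h1 := hμ.2 v (fl v i) (cube_adj.mpr ⟨i, rfl⟩)
  have h2 : p ≤ (μ.toOuterMeasure {H | H.1.Adj v (fl v i)}).toReal := by
    rw [← ENNReal.toReal_ofReal hp]
    exact ENNReal.toReal_mono (prob_ne_top _ _) h1
  have h3 : pcl (wm μ) v i + (μ.toOuterMeasure {H | H.1.Adj v (fl v i)}).toReal = 1 := by
    unfold pcl
    rw [ex_wm, prob_real, ← Finset.sum_add_distrib]
    refine (Finset.sum_congr rfl ?_).trans (total_real μ)
    intro H _
    by_cases h : H.1.Adj v (fl v i)
    · rw [ind_false (P := fun c => c v i = true) (by unfold cl; simp [h]),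
        if_pos (show H ∈ {H : Spanning (cube n) | H.1.Adj v (fl v i)} from h)]
      ring
    · rw [ind_true (P := fun c => c v i = true) (by unfold cl; simp [h]),
        if_neg (show ¬ H ∈ {H : Spanning (cube n) | H.1.Adj v (fl v i)} from h)]
      ring
  linarith

theorem conn_iff (H : Spanning (cube n)) : H.1.Connected ↔ ¬ Dis (cl H) := by
  constructor
  · rintro hc ⟨A, ⟨x, _, y, _, hxy⟩, hA⟩
    have hstep : ∀ u w, H.1.Adj u w → A u = A w := by
      intro u w huw
      obtain ⟨i, rfl⟩ := cube_adj.mp (H.2 huw)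
      by_contra hne
      have := hA u i hne
      unfold cl at this
      simp [huw] at this
    obtain ⟨wk⟩ := hc.preconnected x y
    apply hxy
    clear hxy
    induction wk with
    | nil => rfl
    | cons h _ ih => exact (hstep _ _ h).trans (ih (Set.mem_univ _) (Set.mem_univ _))
  · intro hD
    rw [SimpleGraph.connected_iff]
    refine ⟨?_, ⟨fun _ => false⟩⟩
    intro x y
    by_contra hxy
    apply hD
    refine ⟨fun z => decide (H.1.Reachable x z), ⟨x, Set.mem_univ _, y, Set.mem_univ _, ?_⟩, ?_⟩
    · simp only [SimpleGraph.Reachable.refl, decide_true, hxy, decide_false]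
      simp
    · intro v i hvi
      unfold cl
      rw [decide_eq_true_iff]
      intro hadj
      apply hvi
      simp only [decide_eq_decide]
      exact ⟨fun h => h.trans hadj.reachable, fun h => h.trans hadj.symm.reachable⟩

theorem prob_conn (μ : PMF (Spanning (cube n))) :
    (μ.toOuterMeasure {H | H.1.Connected}).toReal = ex (wm μ) (ind fun c => ¬ Dis c) := by
  rw [ex_wm_ind]
  congr 2
  ext H
  exact conn_iff H

/-! ### the signs model -/

theorem signLaw_real (θ : unitInterval) (s : Vtx n → Bool) :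
    (signLaw (Vtx n) θ s).toReal = pw (wt θ θ) s := by
  unfold signLaw
  rw [PMF.ofFintype_apply, ENNReal.toReal_prod]
  unfold pw
  apply Finset.prod_congr rfl
  intro v _
  rw [ENNReal.toReal_ofReal]
  · unfold wt
    split_ifs <;> rfl
  · split_ifs
    · exact θ.2.1
    · linarith [θ.2.2]

theorem signs_prob (θ : unitInterval) (E : Set (Spanning (cube n))) :
    ((signs (cube n) θ).toOuterMeasure E).toReal =
      ∑ s, pw (wt θ θ) s * (if sameSign (cube n) s ∈ E then 1 else 0) := by
  unfold signs
  rw [PMF.toOuterMeasure_map_apply, prob_real]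
  apply Finset.sum_congr rfl
  intro s _
  rw [signLaw_real]
  rfl

theorem cl_sameSign (s : Vtx n → Bool) : cl (sameSign (cube n) s) = cutf s := by
  funext v i
  unfold cl cutf sameSign
  have : (cube n).Adj v (fl v i) := cube_adj.mpr ⟨i, rfl⟩
  simp only [this, true_and]
  cases s v <;> cases s (fl v i) <;> simp

theorem signs_conn (θ : unitInterval) :
    ((signs (cube n) θ).toOuterMeasure {H | H.1.Connected}).toReal =
      ex (refm (wt θ θ)) (ind fun c : Cfg n => ¬ Dis c) := by
  rw [signs_prob, ex_refm]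
  apply Finset.sum_congr rfl
  intro s _
  congr 1
  have h := conn_iff (sameSign (cube n) s)
  rw [cl_sameSign] at h
  by_cases hD : Dis (cutf s)
  · rw [ind_false (P := fun c => ¬ Dis c) (fun h' => h' hD), if_neg]
    intro h'
    exact (h.mp h') hD
  · rw [ind_true (P := fun c => ¬ Dis c) hD, if_pos]
    exact h.mpr hD

theorem signs_indep (θ : unitInterval) : OneIndep (signs (cube n) θ) := by
  intro S T hST A B
  rw [← ENNReal.toReal_eq_toReal_iff' (prob_ne_top _ _)
    (ENNReal.mul_ne_top (prob_ne_top _ _) (prob_ne_top _ _)), ENNReal.toReal_mul, signs_prob,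
    signs_prob, signs_prob]
  have key := pw_indep (wt (θ : ℝ) θ) (wt_sum _ _) S
    (fun s => if (sameSign (cube n) s).1.induce S ∈ A then (1 : ℝ) else 0)
    (fun s => if (sameSign (cube n) s).1.induce T ∈ B then (1 : ℝ) else 0)
    (by
      intro a b hab
      have : (sameSign (cube n) a).1.induce S = (sameSign (cube n) b).1.induce S := by
        ext x y
        show ((cube n).Adj x y ∧ a x = a y) ↔ ((cube n).Adj x y ∧ b x = b y)
        rw [hab x x.2, hab y y.2]
      simp only [this])
    (by
      intro a b hab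
      have : (sameSign (cube n) a).1.induce T = (sameSign (cube n) b).1.induce T := by
        ext x y
        show ((cube n).Adj x y ∧ a x = a y) ↔ ((cube n).Adj x y ∧ b x = b y)
        rw [hab x fun h => Set.disjoint_left.mp hST h x.2,
          hab y fun h => Set.disjoint_left.mp hST h y.2]
      simp only [this])
  simp only [Set.mem_ofPred_eq]
  rw [← key]
  apply Finset.sum_congr rfl
  intro s _
  congr 1
  by_cases h1 : (sameSign (cube n) s).1.induce S ∈ A <;>
    by_cases h2 : (sameSign (cube n) s).1.induce T ∈ B <;> simp [h1, h2]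

theorem signs_edge (θ : unitInterval) {x y : Vtx n} (h : (cube n).Adj x y) :
    ((signs (cube n) θ).toOuterMeasure {H | H.1.Adj x y}).toReal = 1 - 2 * (θ * (1 - θ)) := by
  obtain ⟨i, rfl⟩ := cube_adj.mp h
  have h1 : ((signs (cube n) θ).toOuterMeasure {H | H.1.Adj x (fl x i)}).toReal +
      ex (refm (wt θ θ)) (ind fun c : Cfg n => c x i = true) = 1 := by
    rw [signs_prob, ex_refm, ← Finset.sum_add_distrib]
    refine (Finset.sum_congr rfl ?_).trans (pw_total (wt (θ : ℝ) θ) (wt_sum _ _))
    intro s _
    by_cases hs : s x = s (fl x i)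
    · rw [if_pos (show sameSign (cube n) s ∈ {H : Spanning (cube n) | H.1.Adj x (fl x i)} from
        ⟨h, hs⟩), ind_false]
      · ring
      · unfold cutf; rw [hs]; simp
    · rw [if_neg (show ¬ sameSign (cube n) s ∈ {H : Spanning (cube n) | H.1.Adj x (fl x i)} from
        fun h' => hs h'.2), ind_true]
      · ring
      · rw [cutf_true_iff]; exact hs
  rw [ex_cl _ (wt_sum _ _)] at h1
  have e := pv_fl x i
  have h2 : wt (θ : ℝ) θ x true * wt (θ : ℝ) θ (fl x i) false +
      wt (θ : ℝ) θ x false * wt (θ : ℝ) θ (fl x i) true = 2 * (θ * (1 - θ)) := by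
    unfold wt
    rw [e]
    cases pv x <;> simp <;> ring
  linarith

/-- **Main theorem.** For every `n ≥ 3` and every `p ∈ [1 - 2^{-(2^{n+1}+6n+8)}, 1]`, the signs
model at `p` minimises the probability that `Q_n` is connected over `D_{≥ p}(Q_n)`. -/
theorem result (n : ℕ) (hn : 3 ≤ n) (p : ℝ) (hp : 1 - 1 / 2 ^ (2 ^ (n + 1) + 6 * n + 8) ≤ p)
    (hp1 : p ≤ 1) : SignsMinimise n p := by
  have hK : (2 : ℝ) ≤ 2 ^ (2 ^ (n + 1) + 6 * n + 8) := by
    apply le_self_pow₀ (by norm_num) (by positivity)
  have hK' : 1 / (2 : ℝ) ^ (2 ^ (n + 1) + 6 * n + 8) ≤ 1 / 2 :=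
    one_div_le_one_div_of_le (by norm_num) hK
  have hp2 : 1 / 2 ≤ p := by linarith
  have hs0 : 0 ≤ √(2 * p - 1) := Real.sqrt_nonneg _
  have hs1 : √(2 * p - 1) * √(2 * p - 1) = 2 * p - 1 := Real.mul_self_sqrt (by linarith)
  have hs2 : √(2 * p - 1) ≤ 1 := by
    exact Real.sqrt_le_iff.mpr ⟨by norm_num, by linarith⟩
  have hθ1 : 1 / 2 ≤ (1 + √(2 * p - 1)) / 2 := by linarith
  have hθ2 : (1 + √(2 * p - 1)) / 2 ≤ 1 := by linarith
  have hε : 2 * ((1 + √(2 * p - 1)) / 2) * (1 - (1 + √(2 * p - 1)) / 2) = 1 - p := by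
    nlinarith
  refine ⟨⟨(1 + √(2 * p - 1)) / 2, by linarith, hθ2⟩, rfl, ⟨signs_indep _, ?_⟩, ?_⟩
  · intro x y hxy
    rw [← ENNReal.ofReal_toReal (prob_ne_top (signs (cube n) _) _)]
    apply ENNReal.ofReal_le_ofReal
    rw [signs_edge _ hxy]
    simp only
    linarith
  · intro μ hμ
    rw [← ENNReal.toReal_le_toReal (prob_ne_top _ _) (prob_ne_top _ _), signs_conn, prob_conn]
    apply main_cfg hn (wm_good hμ.1) hθ1 hθ2 hε
    · unfold Pool.Agent.helper40.Signs.Small
      have h3 : 1 - p ≤ 1 / 2 ^ (2 ^ (n + 1) + 6 * n + 8) := by linarith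
      rw [le_div_iff₀ (by positivity)] at h3
      exact h3
    · exact fun v i => wm_cl (by linarith) hμ v i

end Pool.Agent.Results.MP_2627e3_pr.SignsHypercube
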